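import Pool.Agent.MWKP.Stmts

/-!
The lattice of fully invariant congruences above `K_n` is modular (row KMD of MWKP).
-/

set_option autoImplicit false

namespace Pool.Agent.MWKP.H98

open Pool.Agent.Helper14_MV Pool.Agent.Helper2_MV Pool.Agent.MWK Pool.Agent.MWKP

theorem RRle {ρ τ : FIC} (h : ρ ≤ τ) {u v : List ℕ} (h1 : RR ρ u v) : RR τ u v := h _ _ h1

theorem Kn_mono {n : ℕ} {β ρ : FIC} (h : β ≤ ρ) (hk : Kn n β) : Kn n ρ :=
  ⟨hk.pos, RRle h hk.g, RRle h hk.e, RRle h hk.c⟩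

theorem WT_mono {ρ τ : FIC} (h : ρ ≤ τ) {j : ℕ} (h1 : WT j ρ) : WT j τ :=
  fun P X Q hX => RRle h (h1 P X Q hX)

theorem WR_mono {ρ τ : FIC} (h : ρ ≤ τ) {k j : ℕ} (h1 : WR k j ρ) : WR k j τ :=
  fun P X C qs R hX hl hO => RRle h (h1 P X C qs R hX hl hO)

theorem WF_mono {ρ τ : FIC} (h : ρ ≤ τ) {m : ℕ} (h1 : WF m ρ) : WF m τ :=
  fun P X Y qs R hl hO => RRle h (h1 P X Y qs R hl hO)

theorem WBn_mono {ρ τ : FIC} (h : ρ ≤ τ) {n m : ℕ} (h1 : WBn n m ρ) : WBn n m τ :=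
  fun P X C qs R hl hO => RRle h (h1 P X C qs R hl hO)

theorem WAn_mono {ρ τ : FIC} (h : ρ ≤ τ) {n m : ℕ} (h1 : WAn n m ρ) : WAn n m τ :=
  fun P X C qs R hl hO => RRle h (h1 P X C qs R hl hO)

theorem WDn_mono {ρ τ : FIC} (h : ρ ≤ τ) {n m e : ℕ} (h1 : WDn n m e ρ) : WDn n m e τ :=
  fun P X D C qs R hl hO hD => RRle h (h1 P X D C qs R hl hO hD)

theorem Lv_mono {ρ τ : FIC} (h : ρ ≤ τ) {n m : ℕ} : ∀ {j : ℕ}, Lv n m j ρ → Lv n m j τ
  | 0, h1 => WF_mono h h1
  | 1, h1 => WBn_mono h h1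
  | e + 2, h1 => by
    have h1' : if e + 1 ≤ m then WDn n m (e + 1) ρ else WAn n m ρ := h1
    show if e + 1 ≤ m then WDn n m (e + 1) τ else WAn n m τ
    split_ifs at h1' ⊢ with hc
    · exact WDn_mono h h1'
    · exact WAn_mono h h1'

/-- `(u, v)` in `σ` and in `τ` -/
theorem RR_inf {σ τ : FIC} {u v : List ℕ} (h1 : RR σ u v) (h2 : RR τ u v) :
    RR (FIC.inf σ τ) u v := ⟨h1, h2⟩

theorem WT_inf {σ τ : FIC} {j : ℕ} (h1 : WT j σ) (h2 : WT j τ) : WT j (FIC.inf σ τ) :=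
  fun P X Q hX => RR_inf (h1 P X Q hX) (h2 P X Q hX)

theorem WR_inf {σ τ : FIC} {k j : ℕ} (h1 : WR k j σ) (h2 : WR k j τ) : WR k j (FIC.inf σ τ) :=
  fun P X C qs R hX hl hO => RR_inf (h1 P X C qs R hX hl hO) (h2 P X C qs R hX hl hO)

theorem Lv_inf {σ τ : FIC} {n m : ℕ} : ∀ {j : ℕ}, Lv n m j σ → Lv n m j τ →
    Lv n m j (FIC.inf σ τ)
  | 0, h1, h2 => fun P X Y qs R hl hO => RR_inf (h1 P X Y qs R hl hO) (h2 P X Y qs R hl hO)
  | 1, h1, h2 => fun P X C qs R hl hO => RR_inf (h1 P X C qs R hl hO) (h2 P X C qs R hl hO)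
  | e + 2, h1, h2 => by
    have h1' : if e + 1 ≤ m then WDn n m (e + 1) σ else WAn n m σ := h1
    have h2' : if e + 1 ≤ m then WDn n m (e + 1) τ else WAn n m τ := h2
    show if e + 1 ≤ m then WDn n m (e + 1) (FIC.inf σ τ) else WAn n m (FIC.inf σ τ)
    split_ifs at h1' h2' ⊢ with hc
    · exact fun P X D C qs R hl hO hD =>
        RR_inf (h1' P X D C qs R hl hO hD) (h2' P X D C qs R hl hO hD)
    · exact fun P X C qs R hl hO => RR_inf (h1' P X C qs R hl hO) (h2' P X C qs R hl hO)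

theorem Ok_take : ∀ (qs : List (List ℕ)) (k : ℕ) (A p : List ℕ), Ok A p qs → Ok A p (qs.take k)
  | [], k, A, p, h => by
    rw [List.take_nil]
    exact h
  | q :: qs, 0, A, p, _ => by simp [Ok]
  | q :: qs, k + 1, A, p, h => by
    rw [List.take_succ_cons]
    exact ⟨h.1, Ok_take qs k _ _ h.2⟩

theorem WR_le {θ : FIC} {k l j : ℕ} (hkl : k ≤ l) (h : WR k j θ) : WR l j θ := by
  intro P X C qs R hX hl hO
  have h1 := h P X C (qs.take k) ((qs.drop k).flatten ++ R) hX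
    (by rw [List.length_take, hl, Nat.min_eq_left hkl]) (Ok_take qs k _ _ hO)
  have e : (qs.take k).flatten ++ (qs.drop k).flatten = qs.flatten := by
    rw [← List.flatten_append, List.take_append_drop]
  have e1 : P ++ pw j X ++ C ++ (qs.take k).flatten ++ ((qs.drop k).flatten ++ R) =
      P ++ pw j X ++ C ++ qs.flatten ++ R := by
    rw [← e]; simp [List.append_assoc]
  have e2 : P ++ C ++ pw j X ++ (qs.take k).flatten ++ ((qs.drop k).flatten ++ R) =
      P ++ C ++ pw j X ++ qs.flatten ++ R := by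
    rw [← e]; simp [List.append_assoc]
  rw [e1, e2] at h1
  exact h1

/-- the residue of the second summand -/
theorem res_second {n a b c : ℕ} (hn : 1 ≤ n) (h : c ≡ a + b [MOD n]) :
    c + (n - 1) * a ≡ b [MOD n] := by
  have h1 : c + (n - 1) * a ≡ a + b + (n - 1) * a [MOD n] := h.add_right _
  refine h1.trans ?_
  have h2 : a + b + (n - 1) * a = n * a + b := by
    obtain ⟨k, rfl⟩ : ∃ k, n = k + 1 := ⟨n - 1, by omega⟩
    simp only [Nat.add_sub_cancel]
    ring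
  rw [h2]
  have h3 : n * a ≡ 0 [MOD n] := (Nat.modEq_zero_iff_dvd).2 (Dvd.intro _ rfl)
  have h4 := h3.add_right b
  rwa [Nat.zero_add] at h4

theorem kmd (h1 : WraStmt) (h2 : TotStmt) (h3 : RbtStmt) (h4 : DgnStmt) (_h5 : LvnStmt)
    (_h6 : LvcStmt) (h7 : LvtStmt) (h8 : FinStmt) (h9 : FnlStmt) (h10 : FdgStmt)
    (h11 : LveStmt) (h12 : TelStmt) : KmdStmt := by
  intro n β hβ ρ σ τ b1 b2 b3 hle u0 v0 huv0 ht0
  obtain ⟨u, rfl⟩ : ∃ u : List ℕ, FreeMonoid.ofList u = u0 := ⟨u0.toList, rfl⟩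
  obtain ⟨v, rfl⟩ : ∃ v : List ℕ, FreeMonoid.ofList v = v0 := ⟨v0.toList, rfl⟩
  have huv : RR (FIC.sup ρ σ) u v := huv0
  have ht : RR τ u v := ht0
  have kρ := Kn_mono b1 hβ
  have kσ := Kn_mono b2 hβ
  have kτ := Kn_mono b3 hβ
  have kinf : Kn n (FIC.inf σ τ) :=
    ⟨hβ.pos, RR_inf kσ.g kτ.g, RR_inf kσ.e kτ.e, RR_inf kσ.c kτ.c⟩
  have hl : ρ ≤ FIC.sup ρ (FIC.inf σ τ) := FIC.le_sup_left _ _
  have hr : FIC.inf σ τ ≤ FIC.sup ρ (FIC.inf σ τ) := FIC.le_sup_right _ _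
  have kη : Kn n (FIC.sup ρ (FIC.inf σ τ)) := Kn_mono hl kρ
  show RR (FIC.sup ρ (FIC.inf σ τ)) u v
  generalize FIC.sup ρ (FIC.inf σ τ) = η at hl hr kη ⊢
  -- residues
  have cT : ∀ a b c, c ≡ a + b [MOD n] → WT a ρ → WT b σ → WT c τ → WT c η := by
    intro a b c hc ha hb hct
    have h : WT b τ := (h1 n τ kτ).2.2.2.2.1 _ _ (res_second hβ.pos hc)
      ((h1 n τ kτ).2.2.2.1 _ _ hct ((h1 n τ kτ).2.2.2.2.2 (n - 1) a (WT_mono hle ha)))
    have h' : WT b η := WT_mono hr (WT_inf hb h)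
    exact (h1 n η kη).2.2.2.2.1 _ _ hc.symm ((h1 n η kη).2.2.2.1 _ _ (WT_mono hl ha) h')
  have cR : ∀ k a b c, c ≡ a + b [MOD n] → WR k a ρ → WR k b σ → WR k c τ → WR k c η := by
    intro k a b c hc ha hb hct
    have h : WR k b τ := (h1 n τ kτ).2.1 _ _ _ (res_second hβ.pos hc)
      ((h1 n τ kτ).1 _ _ _ hct ((h1 n τ kτ).2.2.1 _ (n - 1) a (WR_mono hle ha)))
    have h' : WR k b η := WR_mono hr (WR_inf hb h)
    exact (h1 n η kη).2.1 _ _ _ hc.symm ((h1 n η kη).1 _ _ _ (WR_mono hl ha) h')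
  obtain ⟨t1, t2⟩ := h12 n ρ σ kρ kσ u v huv
  have hT : ∀ x, WT (df n (u.count x) (v.count x)) η := by
    intro x
    obtain ⟨a, b, hab, ha, hb⟩ := t1 x
    exact cT a b _ hab ha hb (h2 n τ kτ u v x ht)
  have hR : ∀ k, Ag (FF k v) u v → ∀ y x, Dp (k + 1) v y →
      WR k (df n ((pre u y).count x) ((pre v y).count x)) η := by
    intro k hag y x hy
    have hex : ∃ j, Dp (j + 1) v y := ⟨k, hy⟩
    classical
    obtain ⟨j, hj, hmin⟩ : ∃ j, Dp (j + 1) v y ∧ ∀ i < j, ¬ Dp (i + 1) v y :=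
      ⟨Nat.find hex, Nat.find_spec hex, fun i hi => Nat.find_min hex hi⟩
    have hjk : j ≤ k := by
      by_contra hc
      exact hmin k (by omega) hy
    have hnj : ¬ Dp j v y := by
      cases j with
      | zero => exact fun h => h.elim
      | succ j => exact hmin j (by omega)
    have hagj : Ag (FF j v) u v := hag.weaken fun y x i h => Dp.le hjk h
    obtain ⟨cs, hcl, hcv, hcd⟩ := T.che j v y hj hnj
    have hdag := T.dag j u v hagj
    have hagj' : Ag (FF j u) v u :=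
      hagj.symm.weaken fun y x i h => (hdag j (by omega) y).1 h
    have hcu : Chc u [y] cs :=
      T.trc j v u hagj' cs [y] (fun c hc => (hdag j (by omega) c).2 (hcd c hc)) hcv
    have hyv : y ∈ v := hj.mem
    have hyu : y ∈ u := (hagj.mem y).2 hyv
    have h := h3 n τ kτ u v x y cs ht hyu hyv hcu hcv
    rw [hcl] at h
    obtain ⟨a, b, hab, ha, hb⟩ := t2 j y x hj hnj
    exact WR_le hjk (cR j a b _ hab ha hb h)
  obtain ⟨e1, e2, e3⟩ := h11 n ρ σ kρ kσ u v huv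
  obtain ⟨l1, l2⟩ := h7 n τ kτ u v ht
  have cL : ∀ m j, (Lv n m j ρ ∨ Lv n m j σ) → Lv n m j τ → Lv n m j η := by
    rintro m j (h | h) h'
    · exact Lv_mono hl h
    · exact Lv_mono hr (Lv_inf h h')
  -- contents
  by_cases hcont : ∀ x, x ∈ u ↔ x ∈ v
  swap
  · have hz : Dz n τ := by
      obtain ⟨x, hx⟩ := not_forall.1 hcont
      by_cases hxu : x ∈ u
      · exact (h4 n τ kτ u v ht).2 x hxu (fun hxv => hx ⟨fun _ => hxv, fun _ => hxu⟩)
      · have hxv : x ∈ v := by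
          by_contra hxv
          exact hx ⟨fun h => absurd h hxu, fun h => absurd h hxv⟩
        exact (h4 n τ kτ v u ht.symm).2 x hxv hxu
    have hz' : Dz n η := by
      rcases e2 hcont with h | h
      · exact RRle hl h
      · exact RRle hr (RR_inf h hz)
    exact (h10 n η kη u v hT).2 hz'
  by_cases h00 : AgL 0 0 u v
  swap
  · have hg : Dg n η := by
      rcases e1 h00 with h | h
      · exact RRle hl h
      · exact RRle hr (RR_inf h (l1 h00))
    exact (h10 n η kη u v hT).1 hg hcont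
  by_cases hall : ∀ m, AgL (m + 1) 0 u v
  · have hall' : ∀ m, Ag (FF m v) u v := by
      intro m
      cases m with
      | zero => exact h00
      | succ m => exact hall m
    exact h9 n η kη u v hall' hT (fun k y x hy => hR k (hall' k) y x hy)
  · have hex : ∃ m, ¬ AgL (m + 1) 0 u v := not_forall.1 hall
    classical
    obtain ⟨m, hm, hmin⟩ : ∃ m, ¬ AgL (m + 1) 0 u v ∧ ∀ i < m, AgL (i + 1) 0 u v :=
      ⟨Nat.find hex, Nat.find_spec hex, fun i hi => not_not.1 (Nat.find_min hex hi)⟩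
    have hm0 : AgL m 0 u v := by
      cases m with
      | zero => exact h00
      | succ m => exact hmin m (by omega)
    have hm0' : Ag (FF m v) u v := hm0
    have hRR : ∀ k y x, k ≤ m → Dp (k + 1) v y →
        WR k (df n ((pre u y).count x) ((pre v y).count x)) η := by
      intro k y x hk hy
      exact hR k (hm0'.weaken fun y x i h => Dp.le hk h) y x hy
    by_cases hj : ∀ j ≤ m + 1, AgL m (j + 1) u v
    · have hLv : Lv n m (m + 2) η := cL m (m + 2) ((e3 m).2 hm) ((l2 m).2 hm)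
      refine h8 n η kη m (m + 2) le_rfl hLv u v (hj (m + 1) le_rfl) hT ?_
      intro k y x hk hy
      exact hRR k y x (by omega) hy
    · have hex' : ∃ j, j ≤ m + 1 ∧ ¬ AgL m (j + 1) u v := by
        by_contra hc
        apply hj
        intro j hj'
        by_contra hc'
        exact hc ⟨j, hj', hc'⟩
      obtain ⟨j, ⟨hj1, hj2⟩, hjmin⟩ : ∃ j, (j ≤ m + 1 ∧ ¬ AgL m (j + 1) u v) ∧
          ∀ i < j, ¬ (i ≤ m + 1 ∧ ¬ AgL m (i + 1) u v) :=
        ⟨Nat.find hex', Nat.find_spec hex', fun i hi => Nat.find_min hex' hi⟩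
      have hjj : AgL m j u v := by
        cases j with
        | zero => exact hm0
        | succ j =>
          by_contra hc
          exact hjmin j (by omega) ⟨by omega, hc⟩
      have hLv : Lv n m j η := cL m j ((e3 m).1 j hj1 hj2) ((l2 m).1 j hj1 hj2)
      refine h8 n η kη m j (by omega) hLv u v hjj hT ?_
      intro k y x hk hy
      exact hRR k y x (by omega) hy

end Pool.Agent.MWKP.H98
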